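import Mathlib
import Pool.Agent.Work.MP_e29078_an.Final

/-! # The Kohn Laplacian of a compact real analytic pseudoconvex hypersurface of `ℂ³` need not be
globally real analytic hypoelliptic on `(0,1)`-forms

The definitions (`IsPscHyp`, `StrictPscAt`, `IsVol`, `FormalAdj`, `IsForm`, `boxb`, `WeakBox`,
`IsAnalyticOn`) are in `Pool/Agent/Work/MP_e29078_an/Geom.lean`. -/

open MeasureTheory Set Filter Topology
open scoped Real ComplexConjugate ContDiff ENNReal

namespace Pool.Agent.Results.MP_e29078_an.KohnLaplacian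

open Pool.Agent.Work.MP_e29078_an

/-- There are a compact real analytic pseudoconvex hypersurface `Hyp r` of `ℂ³` (real dimension
`5`, strictly pseudoconvex except possibly at the point `(0, 0, 1)`), the volume `μ` of a real
analytic metric, and a square integrable `(0,1)`-form `u` on it such that `□_b u = v` in the sense
of currents with `v` real analytic on the whole hypersurface, while `u` is not real analytic. -/
theorem result : ∃ (r : C3 → ℝ) (μ : Measure C3) (u v : C3 → Fin 3 → ℂ),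
    (∀ p : C3, r p =
      ‖p.1‖ ^ 2 + ‖p.2.1‖ ^ 4 + ‖1 - p.2.2‖ ^ 2 * ‖p.2.1‖ ^ 2 + ‖p.2.2‖ ^ 2 - 1) ∧
    IsPscHyp r ∧ (0, 0, 1) ∈ Hyp r ∧ (∀ p ∈ Hyp r, p ≠ (0, 0, 1) → StrictPscAt r p) ∧
    IsVol r μ ∧ FormalAdj r μ ∧
    IsForm r u ∧ (∀ k, MemLp (fun p => u p k) 2 μ) ∧
    IsForm r v ∧ (∀ p ∈ Hyp r, AnalyticAt ℝ v p) ∧
    WeakBox r μ u v ∧ ¬ IsAnalyticOn r μ u := by
  obtain ⟨g, Φ, R, u, hR, hΦ, hg, hnd, hu, huf, h1, h2⟩ := exists_u
  exact ⟨rM, muM, u, dbarb rM (fM Φ), fun _ => rfl, isPscHyp_rM, mem_Hyp_rM_point,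
    strict_rM, isVol_muM, formalAdj_rM, huf, hu, dbarb_isForm _,
    fun p hp => dbarb_analytic hp (fM_analytic hR hΦ ((norm_w_le hp).trans_lt hR)),
    weakBox_u hR hΦ hg hu h1 h2, not_analytic hR hΦ hg hnd hu h1⟩

end Pool.Agent.Results.MP_e29078_an.KohnLaplacian
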